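import Mathlib.LinearAlgebra.FreeModule.PID
import Mathlib.RingTheory.Finiteness.Finsupp
import Mathlib.Algebra.Field.Subfield.Basic
import Mathlib.Algebra.Order.Field.Basic
import Mathlib.Tactic

/-!
# Changing the monomials of a frame

`Γ` is a finitely generated subgroup of an ordered field, `φ` a homomorphism from `Γ` to the units.
If every `φ γ` is a unit of `E` times a unit of `U`, one can choose the units of `E` additively.
-/

set_option autoImplicit false

namespace Pool.Agent.ALL61C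

variable {𝕂 Ω : Type*} [Field 𝕂] [LinearOrder 𝕂] [IsStrictOrderedRing 𝕂] [Field Ω]

theorem exists_chi (Γ : AddSubgroup 𝕂) (hfg : Γ.FG) (φ : 𝕂 → Ω) (hφ : ∀ γ ∈ Γ, φ γ ≠ 0)
    (hφa : ∀ γ ∈ Γ, ∀ δ ∈ Γ, φ (γ + δ) = φ γ * φ δ) (E U : Subgroup Ωˣ)
    (h : ∀ γ (hγ : γ ∈ Γ), ∃ c ∈ E, c / Units.mk0 (φ γ) (hφ γ hγ) ∈ U) :
    ∃ ψ : 𝕂 → Ω, (∀ γ ∈ Γ, ψ γ ≠ 0) ∧ (∀ γ ∈ Γ, ∀ δ ∈ Γ, ψ (γ + δ) = ψ γ * ψ δ) ∧
      ∀ γ (hγ : γ ∈ Γ) (h0 : ψ γ ≠ 0), Units.mk0 (ψ γ) h0 ∈ E ∧
        Units.mk0 (ψ γ) h0 / Units.mk0 (φ γ) (hφ γ hγ) ∈ U := by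
  classical
  have h1 : AddGroup.FG Γ := (AddGroup.fg_iff_addSubgroup_fg Γ).2 hfg
  have h2 : Module.Finite ℤ Γ := Module.Finite.iff_addGroup_fg.2 h1
  have h3 : Module.Free ℤ Γ := Module.free_of_finite_type_torsion_free'
  set b := Module.Free.chooseBasis ℤ Γ with hb
  -- the homomorphism of `φ`
  let f : Γ →+ Additive Ωˣ :=
    { toFun := fun γ => Additive.ofMul (Units.mk0 (φ γ) (hφ γ γ.2))
      map_zero' := by
        have h4 := hφa 0 Γ.zero_mem 0 Γ.zero_mem
        rw [add_zero] at h4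
        have h5 : φ 0 = 1 :=
          (mul_right_cancel₀ (hφ 0 Γ.zero_mem) (by rw [one_mul]; exact h4)).symm
        change Additive.ofMul (Units.mk0 (φ ((0 : Γ) : 𝕂)) _) = 0
        rw [← ofMul_one]
        congr 1
        ext
        simp only [ZeroMemClass.coe_zero, Units.val_mk0, Units.val_one]
        exact h5
      map_add' := by
        intro γ δ
        change Additive.ofMul _ = Additive.ofMul _ + Additive.ofMul _
        rw [← ofMul_mul]
        congr 1
        ext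
        rw [Units.val_mul, Units.val_mk0, Units.val_mk0, Units.val_mk0]
        exact hφa γ γ.2 δ δ.2 }
  choose c hcE hcU using h
  let g : Γ →ₗ[ℤ] Additive Ωˣ := b.constr ℤ fun i => Additive.ofMul (c (b i : Γ) (b i).2)
  have hgb : ∀ i, g (b i) = Additive.ofMul (c (b i : Γ) (b i).2) := fun i =>
    b.constr_basis ℤ _ i
  have hkey : ∀ (P : Subgroup (Ωˣ × Ωˣ)), (∀ i, (Additive.toMul (g (b i)),
      Additive.toMul (f (b i))) ∈ P) → ∀ γ : Γ, (Additive.toMul (g γ),
      Additive.toMul (f γ)) ∈ P := by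
    intro P hP γ
    have h4 : γ ∈ Submodule.span ℤ (Set.range b) := by rw [b.span_eq]; trivial
    induction h4 using Submodule.span_induction with
    | mem x hx => obtain ⟨i, rfl⟩ := hx; exact hP i
    | zero =>
      rw [map_zero g, map_zero f]
      exact P.one_mem
    | add x y _ _ hx hy =>
      rw [map_add g, map_add f]
      exact P.mul_mem hx hy
    | smul a x _ hx =>
      rw [map_zsmul g, map_zsmul f]
      exact P.zpow_mem hx a
  have hE : ∀ γ : Γ, Additive.toMul (g γ) ∈ E := by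
    intro γ
    refine (hkey (E.prod ⊤) (fun i => ?_) γ).1
    rw [hgb]
    exact ⟨hcE _ _, trivial⟩
  have hU : ∀ γ : Γ, Additive.toMul (g γ) / Additive.toMul (f γ) ∈ U := by
    intro γ
    let P : Subgroup (Ωˣ × Ωˣ) :=
      { carrier := {x | x.1 / x.2 ∈ U}
        mul_mem' := by
          intro x y hx hy
          change (x.1 * y.1) / (x.2 * y.2) ∈ U
          rw [mul_div_mul_comm]
          exact U.mul_mem hx hy
        one_mem' := by
          change (1 : Ωˣ) / 1 ∈ U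
          rw [div_one]
          exact U.one_mem
        inv_mem' := by
          intro x hx
          change x.1⁻¹ / x.2⁻¹ ∈ U
          have h4 := U.inv_mem hx
          rwa [inv_div_inv, ← inv_div] }
    refine hkey P (fun i => ?_) γ
    change Additive.toMul (g (b i)) / Additive.toMul (f (b i)) ∈ U
    rw [hgb]
    exact hcU _ _
  refine ⟨fun γ => if hγ : γ ∈ Γ then ((Additive.toMul (g ⟨γ, hγ⟩) : Ωˣ) : Ω) else 1, ?_, ?_, ?_⟩
  · intro γ hγ
    dsimp only
    rw [dif_pos hγ]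
    exact Units.ne_zero _
  · intro γ hγ δ hδ
    dsimp only
    rw [dif_pos hγ, dif_pos hδ, dif_pos (Γ.add_mem hγ hδ), ← Units.val_mul, ← toMul_add, ← map_add]
    rfl
  · intro γ hγ h0
    have h4 : Units.mk0 (if hγ : γ ∈ Γ then ((Additive.toMul (g ⟨γ, hγ⟩) : Ωˣ) : Ω) else 1) h0 =
        Additive.toMul (g ⟨γ, hγ⟩) := by
      ext
      rw [Units.val_mk0, dif_pos hγ]
    rw [h4]
    exact ⟨hE _, hU ⟨γ, hγ⟩⟩

end Pool.Agent.ALL61C
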