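import Pool.Agent.Lib.LU1_h15.Basic

/-!
# PROJECT ALL, block Z, row L6a: descent of the monomials (real values, without the hypothesis `hW`)

`N / F` is a finite Galois extension with group `G`, `I` a subring of `N` stable under `G` (the
integral closure), `D` the decomposition group of the centre of `v` on `I`, `H` a subgroup,
`θ` an element fixed by `D` which is a unit at the centre and in the centre for all conjugates
under `G \ D`.  A monomial `a` of the fixed field of `D ⊓ H` is replaced by an element `c` of the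
fixed field of `H`.
-/

set_option autoImplicit false

open Polynomial

namespace Pool.Agent.ALL61R

open Pool.Agent.H15JM (RVal)
open Pool.Agent.LU1 (VPos)

universe u

section

variable {N : Type u} [Field N]

/-- All coefficients lie in the subring `I`. -/
def PC (I : Subring N) (P : N[X]) : Prop := ∀ i, P.coeff i ∈ I

theorem PC.one (I : Subring N) : PC I (1 : N[X]) := by
  intro i
  rw [coeff_one]
  split_ifs
  · exact I.one_mem
  · exact I.zero_mem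

theorem PC.mul {I : Subring N} {P Q : N[X]} (hP : PC I P) (hQ : PC I Q) : PC I (P * Q) := by
  intro i
  rw [coeff_mul]
  exact I.sum_mem fun x _ => I.mul_mem (hP _) (hQ _)

theorem PC.X_sub_C {I : Subring N} {n : N} (hn : n ∈ I) : PC I (X - C n : N[X]) := by
  intro i
  rw [coeff_sub, coeff_X, coeff_C]
  refine I.sub_mem ?_ ?_
  · split_ifs
    · exact I.one_mem
    · exact I.zero_mem
  · split_ifs
    · exact hn
    · exact I.zero_mem

theorem PC.prod {I : Subring N} {ι : Type*} (s : Finset ι) (P : ι → N[X])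
    (h : ∀ i ∈ s, PC I (P i)) : PC I (∏ i ∈ s, P i) := by
  classical
  induction s using Finset.induction_on with
  | empty => rw [Finset.prod_empty]; exact PC.one I
  | insert i s hi ih =>
    rw [Finset.prod_insert hi]
    exact (h i (Finset.mem_insert_self i s)).mul
      (ih fun j hj => h j (Finset.mem_insert_of_mem hj))

variable {v : RVal N}

theorem vpos_sum {ι : Type*} (s : Finset ι) (f : ι → N) (h : ∀ i ∈ s, VPos v (f i)) :
    VPos v (∑ i ∈ s, f i) := by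
  classical
  induction s using Finset.induction_on with
  | empty => rw [Finset.sum_empty]; exact fun h => absurd rfl h
  | insert i s hi ih =>
    rw [Finset.sum_insert hi]
    exact (h i (Finset.mem_insert_self i s)).add
      (ih fun j hj => h j (Finset.mem_insert_of_mem hj))

theorem vpos_neg {f : N} (h : VPos v f) : VPos v (-f) := h.neg

/-- `v a = 0` if `a ≥ 0` is not in the centre. -/
theorem val_zero {a : N} (h0 : v.Ge 0 a) (h : ¬ VPos v a) : a ≠ 0 ∧ v a = 0 := by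
  unfold VPos at h
  push Not at h
  exact ⟨h.1, le_antisymm h.2 (h0 h.1)⟩

theorem not_vpos {a : N} (h0 : a ≠ 0) (h1 : v a = 0) : ¬ VPos v a := fun h => by
  have := h h0
  rw [h1] at this
  exact lt_irrefl _ this

theorem prod_ne {ι : Type*} (s : Finset ι) (f : ι → N) (h : ∀ i ∈ s, f i ≠ 0 ∧ v (f i) = 0) :
    (∏ i ∈ s, f i) ≠ 0 ∧ v (∏ i ∈ s, f i) = 0 := by
  refine ⟨Finset.prod_ne_zero_iff.2 fun i hi => (h i hi).1, ?_⟩
  rw [v.map_prod s f fun i hi => (h i hi).1]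
  exact Finset.sum_eq_zero fun i hi => (h i hi).2

end

section

variable {F : Type*} {N : Type u} [Field F] [Field N] [Algebra F N]

/-- The setting of the descent. -/
structure DS (H D : Subgroup (N ≃ₐ[F] N)) (I : Subring N) (v w : RVal N) (θ : N) (S : Set N) :
    Prop where
  I_map : ∀ σ : N ≃ₐ[F] N, ∀ a ∈ I, σ a ∈ I
  v_nonneg : ∀ a ∈ I, v.Ge 0 a
  w_nonneg : ∀ a ∈ I, w.Ge 0 a
  D_map : ∀ σ ∈ D, ∀ a ∈ I, VPos v a → VPos v (σ a)
  cen : ∀ a ∈ I, VPos w a → VPos v a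
  θ_mem : θ ∈ I
  θ_fix : ∀ σ ∈ D, σ θ = θ
  θ_ne : θ ≠ 0
  θ_val : v θ = 0
  θ_pos : ∀ σ : N ≃ₐ[F] N, σ ∉ D → VPos v (σ θ)
  S_ne : ∀ g ∈ S, g ≠ 0
  S_fix : ∀ g ∈ S, ∀ σ : N ≃ₐ[F] N, σ g = g
  S_one : 1 ∈ S
  S_mul : ∀ g ∈ S, ∀ g' ∈ S, g * g' ∈ S
  S_inv : ∀ g ∈ S, g⁻¹ ∈ S

/-- The localisation of `I` at the centre of `v`. -/
def Lc (I : Subring N) (v : RVal N) : Set N :=
  {a | ∃ b ∈ I, ∃ t ∈ I, t ≠ 0 ∧ v t = 0 ∧ a * t = b}

variable {H D : Subgroup (N ≃ₐ[F] N)} {I : Subring N} {v w : RVal N} {θ : N} {S : Set N}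

theorem subset_Lc {a : N} (ha : a ∈ I) : a ∈ Lc I v :=
  ⟨a, ha, 1, I.one_mem, one_ne_zero, v.map_one, mul_one a⟩

theorem Lc_mul {a b : N} (ha : a ∈ Lc I v) (hb : b ∈ Lc I v) : a * b ∈ Lc I v := by
  obtain ⟨c, hc, t, ht, ht0, hvt, rfl⟩ := ha
  obtain ⟨d, hd, u, hu, hu0, hvu, rfl⟩ := hb
  refine ⟨(a * t) * (b * u), I.mul_mem hc hd, t * u, I.mul_mem ht hu, mul_ne_zero ht0 hu0, ?_, ?_⟩
  · rw [v.map_mul ht0 hu0, hvt, hvu, add_zero]
  · ring

theorem Lc_ge (hv : ∀ a ∈ I, v.Ge 0 a) {a : N} (ha : a ∈ Lc I v) : v.Ge 0 a := by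
  obtain ⟨b, hb, t, ht, ht0, hvt, rfl⟩ := ha
  intro h0
  have h1 := hv _ hb (mul_ne_zero h0 ht0)
  rw [v.map_mul h0 ht0, hvt, add_zero] at h1
  exact h1

/-- An element of value `0` of `I` and its inverse are in `Lc`. -/
theorem inv_mem_Lc {t : N} (ht : t ∈ I) (ht0 : t ≠ 0) (hvt : v t = 0) : t⁻¹ ∈ Lc I v :=
  ⟨1, I.one_mem, t, ht, ht0, hvt, inv_mul_cancel₀ ht0⟩

namespace DS

variable (h : DS H D I v w θ S)
include h

/-- Elements of `D` preserve value `0` in `I`. -/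
theorem D_val {σ : N ≃ₐ[F] N} (hσ : σ ∈ D) {a : N} (ha : a ∈ I) (h0 : a ≠ 0) (h1 : v a = 0) :
    σ a ≠ 0 ∧ v (σ a) = 0 := by
  refine val_zero (h.v_nonneg _ (h.I_map σ a ha)) fun h2 => ?_
  have h3 := h.D_map σ⁻¹ (D.inv_mem hσ) (σ a) (h.I_map σ a ha) h2
  rw [← AlgEquiv.mul_apply, inv_mul_cancel, AlgEquiv.one_apply] at h3
  exact not_vpos h0 h1 h3

/-- The stabiliser of `θ` is `D`. -/
theorem mem_D_of_fix {σ : N ≃ₐ[F] N} (hσ : σ θ = θ) : σ ∈ D := by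
  by_contra hcon
  have h1 := h.θ_pos σ hcon
  rw [hσ] at h1
  exact not_vpos h.θ_ne h.θ_val h1

end DS

/-! ### Lagrange interpolation over the orbit of `θ` -/

/-- The orbit of `θ` with representatives. -/
structure Orb (H : Subgroup (N ≃ₐ[F] N)) (θ : N) (O : Finset N) (rep : N → (N ≃ₐ[F] N)) :
    Prop where
  mem : ∀ τ ∈ H, τ θ ∈ O
  rep_mem : ∀ t ∈ O, rep t ∈ H
  rep_app : ∀ t ∈ O, rep t θ = t

theorem exists_orb [FiniteDimensional F N] (H : Subgroup (N ≃ₐ[F] N)) (θ : N) :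
    ∃ (O : Finset N) (rep : N → (N ≃ₐ[F] N)), Orb H θ O rep := by
  classical
  have hfin : Fintype (N ≃ₐ[F] N) := Fintype.ofFinite _
  set O : Finset N := ((Finset.univ : Finset (N ≃ₐ[F] N)).filter (· ∈ H)).image
    fun τ => τ θ with hO
  have h1 : ∀ t, ∃ τ : N ≃ₐ[F] N, t ∈ O → τ ∈ H ∧ τ θ = t := by
    intro t
    by_cases ht : t ∈ O
    · rw [hO, Finset.mem_image] at ht
      obtain ⟨τ, hτ, hτt⟩ := ht
      exact ⟨τ, fun _ => ⟨(Finset.mem_filter.1 hτ).2, hτt⟩⟩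
    · exact ⟨1, fun h => absurd h ht⟩
  choose rep hrep using h1
  refine ⟨O, rep, ⟨fun τ hτ => ?_, fun t ht => (hrep t ht).1, fun t ht => (hrep t ht).2⟩⟩
  rw [hO]
  exact Finset.mem_image_of_mem _ (Finset.mem_filter.2 ⟨Finset.mem_univ _, hτ⟩)

variable {O : Finset N} {rep : N → (N ≃ₐ[F] N)}

/-- The product of the `X - t'`, `t'` in the orbit, `t' ≠ t`. -/
noncomputable def lp [DecidableEq N] (O : Finset N) (t : N) : N[X] :=
  ∏ t' ∈ O.erase t, (X - C t')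

/-- The Lagrange polynomial. -/
noncomputable def lag [DecidableEq N] (O : Finset N) (rep : N → (N ≃ₐ[F] N)) (b : N) : N[X] :=
  ∑ t ∈ O, C (rep t b) * lp O t

theorem Orb.map_mem (ho : Orb H θ O rep) {ρ : N ≃ₐ[F] N} (hρ : ρ ∈ H) {t : N} (ht : t ∈ O) :
    ρ t ∈ O := by
  rw [← ho.rep_app t ht, ← AlgEquiv.mul_apply]
  exact ho.mem _ (H.mul_mem hρ (ho.rep_mem t ht))

theorem Orb.lp_map [DecidableEq N] (ho : Orb H θ O rep) {ρ : N ≃ₐ[F] N} (hρ : ρ ∈ H) (t : N) :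
    (lp O t).map (ρ : N →+* N) = lp O (ρ t) := by
  classical
  rw [lp, lp, Polynomial.map_prod]
  refine Finset.prod_bij (fun t' _ => ρ t') ?_ ?_ ?_ ?_
  · intro t' ht'
    rw [Finset.mem_erase] at ht' ⊢
    exact ⟨fun e => ht'.1 (ρ.injective e), ho.map_mem hρ ht'.2⟩
  · intro a _ b _ e
    exact ρ.injective e
  · intro s hs
    rw [Finset.mem_erase] at hs
    refine ⟨ρ⁻¹ s, Finset.mem_erase.2 ⟨?_, ho.map_mem (H.inv_mem hρ) hs.2⟩, ?_⟩
    · intro e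
      apply hs.1
      rw [← e, ← AlgEquiv.mul_apply, mul_inv_cancel, AlgEquiv.one_apply]
    · rw [← AlgEquiv.mul_apply, mul_inv_cancel, AlgEquiv.one_apply]
  · intro t' _
    rw [Polynomial.map_sub, Polynomial.map_X, Polynomial.map_C]
    rfl

theorem DS.rep_eq (h : DS H D I v w θ S) (ho : Orb H θ O rep) {b : N}
    (hb : ∀ σ ∈ D, σ ∈ H → σ b = b) {τ : N ≃ₐ[F] N} (hτ : τ ∈ H) :
    rep (τ θ) b = τ b := by
  have h1 := ho.rep_app (τ θ) (ho.mem τ hτ)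
  have h2 := ho.rep_mem (τ θ) (ho.mem τ hτ)
  have h3 : (τ⁻¹ * rep (τ θ)) θ = θ := by
    rw [AlgEquiv.mul_apply, h1, ← AlgEquiv.mul_apply, inv_mul_cancel, AlgEquiv.one_apply]
  have h4 := hb _ (h.mem_D_of_fix h3) (H.mul_mem (H.inv_mem hτ) h2)
  rw [AlgEquiv.mul_apply] at h4
  have h5 := congrArg τ h4
  rw [← AlgEquiv.mul_apply, mul_inv_cancel, AlgEquiv.one_apply] at h5
  exact h5

theorem DS.lag_map [DecidableEq N] (h : DS H D I v w θ S) (ho : Orb H θ O rep) {b : N}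
    (hb : ∀ σ ∈ D, σ ∈ H → σ b = b) {ρ : N ≃ₐ[F] N} (hρ : ρ ∈ H) :
    (lag O rep b).map (ρ : N →+* N) = lag O rep b := by
  classical
  rw [lag, Polynomial.map_sum]
  refine Finset.sum_bij (fun t _ => ρ t) (fun t ht => ho.map_mem hρ ht)
    (fun a _ b _ e => ρ.injective e) ?_ ?_
  · intro s hs
    refine ⟨ρ⁻¹ s, ho.map_mem (H.inv_mem hρ) hs, ?_⟩
    rw [← AlgEquiv.mul_apply, mul_inv_cancel, AlgEquiv.one_apply]
  · intro t ht
    rw [Polynomial.map_mul, ho.lp_map hρ, Polynomial.map_C]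
    congr 2
    have h1 : ρ t = (ρ * rep t) θ := by rw [AlgEquiv.mul_apply, ho.rep_app t ht]
    rw [h1, h.rep_eq ho hb (H.mul_mem hρ (ho.rep_mem t ht)), AlgEquiv.mul_apply]
    rfl

theorem DS.lag_coeff_fix [DecidableEq N] (h : DS H D I v w θ S) (ho : Orb H θ O rep) {b : N}
    (hb : ∀ σ ∈ D, σ ∈ H → σ b = b) {ρ : N ≃ₐ[F] N} (hρ : ρ ∈ H) (i : ℕ) :
    ρ ((lag O rep b).coeff i) = (lag O rep b).coeff i := by
  have h1 := congrArg (fun P => P.coeff i) (h.lag_map ho hb hρ)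
  rw [Polynomial.coeff_map] at h1
  exact h1

theorem DS.lag_eval [DecidableEq N] (h : DS H D I v w θ S) (ho : Orb H θ O rep) {b : N}
    (hb : ∀ σ ∈ D, σ ∈ H → σ b = b) :
    (lag O rep b).eval θ = b * (lp O θ).eval θ := by
  classical
  have hθO : θ ∈ O := by
    have := ho.mem 1 H.one_mem
    rwa [AlgEquiv.one_apply] at this
  rw [lag, eval_finsetSum, Finset.sum_eq_single θ]
  · rw [eval_mul, eval_C]
    have := h.rep_eq ho hb H.one_mem
    rw [AlgEquiv.one_apply, AlgEquiv.one_apply] at this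
    rw [this]
  · intro t _ hne
    rw [eval_mul, lp, eval_prod]
    have : ∏ t' ∈ O.erase t, (X - C t').eval θ = 0 := by
      refine Finset.prod_eq_zero (Finset.mem_erase.2 ⟨Ne.symm hne, hθO⟩) ?_
      simp
    rw [this, mul_zero]
  · intro hcon
    exact absurd hθO hcon

/-- The derivative at `θ` has value `0`. -/
theorem DS.lp_val [DecidableEq N] (h : DS H D I v w θ S) (ho : Orb H θ O rep) :
    (lp O θ).eval θ ≠ 0 ∧ v ((lp O θ).eval θ) = 0 ∧ (lp O θ).eval θ ∈ I := by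
  classical
  rw [lp, eval_prod]
  have h1 : ∀ t' ∈ O.erase θ, ((X - C t') : N[X]).eval θ ≠ 0 ∧
      v (((X - C t') : N[X]).eval θ) = 0 := by
    intro t' ht'
    rw [Finset.mem_erase] at ht'
    rw [eval_sub, eval_X, eval_C]
    have h2 : VPos v t' := by
      have h3 : rep t' ∉ D := by
        intro h4
        apply ht'.1
        rw [← ho.rep_app t' ht'.2, h.θ_fix _ h4]
      have h5 := h.θ_pos _ h3
      rwa [ho.rep_app t' ht'.2] at h5
    have h3 : v.Ge 0 (θ - t') := by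
      refine Pool.Agent.H15JM.RVal.Ge.sub (h.v_nonneg _ h.θ_mem) ?_
      rw [← ho.rep_app t' ht'.2]
      exact h.v_nonneg _ (h.I_map _ _ h.θ_mem)
    refine val_zero h3 fun h4 => ?_
    have h5 : VPos v θ := by
      have := h4.add h2
      rwa [sub_add_cancel] at this
    exact not_vpos h.θ_ne h.θ_val h5
  refine ⟨(prod_ne _ _ h1).1, (prod_ne _ _ h1).2, ?_⟩
  refine I.prod_mem fun t' ht' => ?_
  rw [Finset.mem_erase] at ht'
  rw [eval_sub, eval_X, eval_C]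
  refine I.sub_mem h.θ_mem ?_
  rw [← ho.rep_app t' ht'.2]
  exact h.I_map _ _ h.θ_mem

theorem DS.lp_coeff [DecidableEq N] (h : DS H D I v w θ S) (ho : Orb H θ O rep) (t : N) (i : ℕ) :
    (lp O t).coeff i ∈ I := by
  refine PC.prod _ _ (fun t' ht' => PC.X_sub_C ?_) i
  rw [Finset.mem_erase] at ht'
  rw [← ho.rep_app t' ht'.2]
  exact h.I_map _ _ h.θ_mem

/-! ### The norm to the fixed field of `D ⊓ H` -/

/-- The product of the conjugates under `D ⊓ H`. -/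
theorem DS.exists_norm [FiniteDimensional F N] (h : DS H D I v w θ S) {t : N} (ht : t ∈ I)
    (ht0 : t ≠ 0) (hvt : v t = 0) :
    ∃ t' ∈ I, t * t' ≠ 0 ∧ v (t * t') = 0 ∧ (∀ σ ∈ D, σ ∈ H → σ (t * t') = t * t') := by
  classical
  have hfin : Fintype (N ≃ₐ[F] N) := Fintype.ofFinite _
  set K : Finset (N ≃ₐ[F] N) := Finset.univ.filter fun σ => σ ∈ D ∧ σ ∈ H with hK
  have h1 : (1 : N ≃ₐ[F] N) ∈ K := by
    rw [hK, Finset.mem_filter]
    exact ⟨Finset.mem_univ _, D.one_mem, H.one_mem⟩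
  have hmem : ∀ σ, σ ∈ K ↔ σ ∈ D ∧ σ ∈ H := fun σ => by
    rw [hK, Finset.mem_filter]
    exact ⟨fun h => h.2, fun h => ⟨Finset.mem_univ _, h⟩⟩
  have h2 : t * ∏ σ ∈ K.erase 1, σ t = ∏ σ ∈ K, σ t := by
    rw [← Finset.mul_prod_erase K (fun σ => σ t) h1]
    rfl
  have h3 : ∀ σ ∈ K, σ t ≠ 0 ∧ v (σ t) = 0 := fun σ hσ =>
    h.D_val ((hmem σ).1 hσ).1 ht ht0 hvt
  refine ⟨∏ σ ∈ K.erase 1, σ t, I.prod_mem fun σ _ => h.I_map σ t ht, ?_, ?_, ?_⟩
  · rw [h2]; exact (prod_ne K _ h3).1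
  · rw [h2]; exact (prod_ne K _ h3).2
  · intro ρ hρ hρ'
    rw [h2, map_prod]
    refine Finset.prod_bij (fun σ _ => ρ * σ) ?_ ?_ ?_ ?_
    · intro σ hσ
      rw [hmem] at hσ ⊢
      exact ⟨D.mul_mem hρ hσ.1, H.mul_mem hρ' hσ.2⟩
    · intro a _ b _ e
      exact mul_left_cancel e
    · intro σ hσ
      rw [hmem] at hσ
      refine ⟨ρ⁻¹ * σ, ?_, by rw [mul_inv_cancel_left]⟩
      rw [hmem]
      exact ⟨D.mul_mem (D.inv_mem hρ) hσ.1, H.mul_mem (H.inv_mem hρ') hσ.2⟩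
    · intro σ _
      rfl

/-- An element of `I` of value `0` has `w`-value `0`. -/
theorem DS.w_val (h : DS H D I v w θ S) {t : N} (ht : t ∈ I) (ht0 : t ≠ 0) (hvt : v t = 0) :
    w t = 0 :=
  (val_zero (h.w_nonneg _ ht) fun h1 => not_vpos ht0 hvt (h.cen _ ht h1)).2

/-! ### The descent -/

theorem DS.w_Lc (h : DS H D I v w θ S) {a : N} (ha : a ∈ Lc I v) : w.Ge 0 a := by
  obtain ⟨b, hb, t, ht, ht0, hvt, rfl⟩ := ha
  intro h0
  have h1 := h.w_nonneg _ hb (mul_ne_zero h0 ht0)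
  rw [w.map_mul h0 ht0, h.w_val ht ht0 hvt, add_zero] at h1
  exact h1

theorem DS.S_pow (h : DS H D I v w θ S) {g : N} (hg : g ∈ S) (m : ℕ) : g ^ m ∈ S := by
  induction m with
  | zero => rw [pow_zero]; exact h.S_one
  | succ m ih => rw [pow_succ]; exact h.S_mul _ ih _ hg

theorem Lc_pow {a : N} (ha : a ∈ Lc I v) (m : ℕ) : a ^ m ∈ Lc I v := by
  induction m with
  | zero => rw [pow_zero]; exact subset_Lc I.one_mem
  | succ m ih => rw [pow_succ]; exact Lc_mul ih ha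

/-- The denominator `s`: `w a ≤ w (τ a) + w (τ s)` for all `τ`. -/
theorem DS.exists_den (h : DS H D I v w θ S)
    (h1 : ∀ b : N, (∀ σ ∈ D, σ ∈ H → σ b = b) → (∃ g ∈ S, g * b ∈ Lc I v) → w.Ge 0 b →
      b ∈ Lc I v)
    {a : N} (ha0 : a ≠ 0) (hafix : ∀ σ ∈ D, σ ∈ H → σ a = a) (ha : ∃ g ∈ S, g * a ∈ Lc I v)
    {e : ℕ} (he : 0 < e) {m : N} (hm : m ∈ S) (hae : (e : ℝ) * w a = w m) :
    ∃ s ∈ I, s ≠ 0 ∧ v s = 0 ∧ ∀ τ : N ≃ₐ[F] N, w a ≤ w (τ a) + w (τ s) := by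
  have hm0 := h.S_ne m hm
  obtain ⟨g, hg, hga⟩ := ha
  have h2 : a ^ e / m ∈ Lc I v := by
    refine h1 _ ?_ ⟨g ^ e * m, h.S_mul _ (h.S_pow hg e) _ hm, ?_⟩ ?_
    · intro σ hσ hσ'
      rw [map_div₀, map_pow, hafix σ hσ hσ', h.S_fix m hm]
    · have : g ^ e * m * (a ^ e / m) = (g * a) ^ e := by
        rw [mul_pow]
        field_simp
      rw [this]
      exact Lc_pow hga e
    · intro _
      rw [w.map_div (pow_ne_zero _ ha0) hm0, w.map_pow ha0, hae, sub_self]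
  obtain ⟨b, hb, s, hs, hs0, hvs, hbs⟩ := h2
  refine ⟨s, hs, hs0, hvs, fun τ => ?_⟩
  have ht0 : τ a ≠ 0 := by rw [Ne, map_eq_zero]; exact ha0
  have hts0 : τ s ≠ 0 := by rw [Ne, map_eq_zero]; exact hs0
  have hb0 : b ≠ 0 := by
    rw [← hbs]
    exact mul_ne_zero (div_ne_zero (pow_ne_zero _ ha0) hm0) hs0
  have htb0 : τ b ≠ 0 := by rw [Ne, map_eq_zero]; exact hb0
  have h3 : (τ a) ^ e * τ s = m * τ b := by
    rw [← hbs, map_mul, map_div₀, map_pow, h.S_fix m hm]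
    field_simp
  have h4 := congrArg w h3
  rw [w.map_mul (pow_ne_zero _ ht0) hts0, w.map_pow ht0, w.map_mul hm0 htb0, ← hae] at h4
  have h5 : 0 ≤ w (τ b) := h.w_nonneg _ (h.I_map _ _ hb) htb0
  have h6 : 0 ≤ w (τ s) := h.w_nonneg _ (h.I_map _ _ hs) hts0
  have h7 : (e : ℝ) * w a ≤ e * (w (τ a) + w (τ s)) := by
    have h8 : (1 : ℝ) ≤ e := by exact_mod_cast he
    have h9 : w (τ s) ≤ e * w (τ s) := le_mul_of_one_le_left h6 h8
    rw [mul_add]
    linarith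
  exact le_of_mul_le_mul_left h7 (by exact_mod_cast he)

theorem DS.descend [FiniteDimensional F N] (h : DS H D I v w θ S)
    (h1 : ∀ b : N, (∀ σ ∈ D, σ ∈ H → σ b = b) → (∃ g ∈ S, g * b ∈ Lc I v) → w.Ge 0 b →
      b ∈ Lc I v)
    {a : N} (ha0 : a ≠ 0) (hafix : ∀ σ ∈ D, σ ∈ H → σ a = a) (ha : ∃ g ∈ S, g * a ∈ Lc I v)
    (ha' : ∃ g ∈ S, g * a⁻¹ ∈ Lc I v)
    (hator : ∃ e : ℕ, 0 < e ∧ ∃ m ∈ S, (e : ℝ) * w a = w m) :
    ∃ c : N, c ≠ 0 ∧ (∀ σ ∈ H, σ c = c) ∧ (∃ g ∈ S, g * c ∈ I) ∧ c / a ∈ Lc I v ∧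
      v (c / a) = 0 := by
  classical
  have hfin : Fintype (N ≃ₐ[F] N) := Fintype.ofFinite _
  obtain ⟨e, he, m, hm, hae⟩ := hator
  obtain ⟨s', hs'I, hs'0, hvs', hsw⟩ := h.exists_den h1 ha0 hafix ha he hm hae
  -- make `a` integral
  obtain ⟨g, hg, b₀, hb₀, t, ht, ht0, hvt, hb₀'⟩ := ha
  obtain ⟨g', hg', hga'⟩ := ha'
  obtain ⟨t', ht', hn0, hvn, hnfix⟩ := h.exists_norm ht ht0 hvt
  obtain ⟨s'', hs'', hs0, hvs, hsfix⟩ := h.exists_norm hs'I hs'0 hvs'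
  set n := t * t' with hn
  set s := s' * s'' with hs
  have hnI : n ∈ I := I.mul_mem ht ht'
  have hsI : s ∈ I := I.mul_mem hs'I hs''
  set a₁ := n * a with ha₁
  have ha₁0 : a₁ ≠ 0 := mul_ne_zero hn0 ha0
  have ha₁I : g * a₁ ∈ I := by
    have : g * a₁ = b₀ * t' := by rw [← hb₀', ha₁, hn]; ring
    rw [this]
    exact I.mul_mem hb₀ ht'
  have ha₁fix : ∀ σ ∈ D, σ ∈ H → σ a₁ = a₁ := fun σ hσ hσ' => by
    rw [ha₁, map_mul, hnfix σ hσ hσ', hafix σ hσ hσ']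
  have hwa₁ : w a₁ = w a := by
    rw [ha₁, w.map_mul hn0 ha0, h.w_val hnI hn0 hvn, zero_add]
  set b := a₁ * s with hb
  have hb0 : b ≠ 0 := mul_ne_zero ha₁0 hs0
  have hbI : g * b ∈ I := by
    rw [hb, ← mul_assoc]
    exact I.mul_mem ha₁I hsI
  have hbfix : ∀ σ ∈ D, σ ∈ H → σ b = b := fun σ hσ hσ' => by
    rw [hb, map_mul, ha₁fix σ hσ hσ', hsfix σ hσ hσ']
  have hwb : ∀ τ ∈ H, w.Ge (w a₁) (τ b) := by
    intro τ hτ _
    have h3 : τ n ≠ 0 := by rw [Ne, map_eq_zero]; exact hn0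
    have h4 : τ a ≠ 0 := by rw [Ne, map_eq_zero]; exact ha0
    have h5 : τ s' ≠ 0 := by rw [Ne, map_eq_zero]; exact hs'0
    have h6 : τ s'' ≠ 0 := by
      rw [Ne, map_eq_zero]; exact right_ne_zero_of_mul hs0
    have hτb : τ b = (τ n * τ a) * (τ s' * τ s'') := by
      rw [← map_mul τ n a, ← map_mul τ s' s'', ← map_mul τ]
    rw [hwa₁, hτb, w.map_mul (mul_ne_zero h3 h4) (mul_ne_zero h5 h6), w.map_mul h3 h4,
      w.map_mul h5 h6]
    have h7 := h.w_nonneg _ (h.I_map τ n hnI) h3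
    have h8 := h.w_nonneg _ (h.I_map τ s'' hs'') h6
    have h9 := hsw τ
    linarith
  -- the coefficients
  obtain ⟨O, rep, ho⟩ := exists_orb H θ
  set L := lag O rep b with hL
  have hcoeff : ∀ i, L.coeff i = ∑ t ∈ O, rep t b * (lp O t).coeff i := by
    intro i
    rw [hL, lag, finsetSum_coeff]
    exact Finset.sum_congr rfl fun t _ => coeff_C_mul _
  have hLw : ∀ i, w.Ge (w a₁) (L.coeff i) := by
    intro i
    rw [hcoeff]
    refine Pool.Agent.H15JM.RVal.Ge.sum _ _ fun t ht => ?_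
    have := Pool.Agent.H15JM.RVal.Ge.mul (hwb (rep t) (ho.rep_mem t ht))
      (h.w_nonneg _ (h.lp_coeff ho t i))
    rwa [add_zero] at this
  have hLI : ∀ i, g * L.coeff i ∈ I := by
    intro i
    rw [hcoeff, Finset.mul_sum]
    refine I.sum_mem fun t ht => ?_
    have : g * (rep t b * (lp O t).coeff i) = rep t (g * b) * (lp O t).coeff i := by
      have h2 : rep t (g * b) = g * rep t b := by rw [map_mul (rep t) g b, h.S_fix g hg]
      rw [h2]; ring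
    rw [this]
    exact I.mul_mem (h.I_map _ _ hbI) (h.lp_coeff ho t i)
  have hLfix : ∀ i, ∀ σ ∈ H, σ (L.coeff i) = L.coeff i := fun i σ hσ =>
    h.lag_coeff_fix ho hbfix hσ i
  have hninv : n⁻¹ ∈ Lc I v := inv_mem_Lc hnI hn0 hvn
  have hLc : ∀ i, L.coeff i / a₁ ∈ Lc I v := by
    intro i
    refine h1 _ ?_ ⟨g * g', h.S_mul g hg g' hg', ?_⟩ ?_
    · intro σ hσ hσ'
      rw [map_div₀, hLfix i σ hσ', ha₁fix σ hσ hσ']
    · have : g * g' * (L.coeff i / a₁) = (g * L.coeff i) * ((g' * a⁻¹) * n⁻¹) := by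
        rw [ha₁, div_eq_mul_inv, mul_inv]; ring
      rw [this]
      exact Lc_mul (subset_Lc (hLI i)) (Lc_mul hga' hninv)
    · intro hne
      have h2 : L.coeff i ≠ 0 := fun h => hne (by rw [h, zero_div])
      rw [w.map_div h2 ha₁0]
      have := hLw i h2
      linarith
  have hsum : ∑ i ∈ Finset.range (L.natDegree + 1), (L.coeff i / a₁) * θ ^ i =
      s * (lp O θ).eval θ := by
    have h2 := h.lag_eval ho hbfix
    rw [← hL, eval_eq_sum_range] at h2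
    have h3 : ∀ i, (L.coeff i / a₁) * θ ^ i = a₁⁻¹ * (L.coeff i * θ ^ i) := fun i => by
      rw [div_eq_mul_inv]; ring
    rw [Finset.sum_congr rfl fun i _ => h3 i, ← Finset.mul_sum, h2, hb]
    field_simp
  obtain ⟨hl0, hlv, hlI⟩ := h.lp_val ho
  have hex : ∃ i, ¬ VPos v (L.coeff i / a₁) := by
    by_contra hcon
    push Not at hcon
    have h2 : VPos v (∑ i ∈ Finset.range (L.natDegree + 1), (L.coeff i / a₁) * θ ^ i) :=
      vpos_sum _ _ fun i _ => (hcon i).mul (h.v_nonneg _ (I.pow_mem h.θ_mem i))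
    rw [hsum] at h2
    refine not_vpos (mul_ne_zero hs0 hl0) ?_ h2
    rw [v.map_mul hs0 hl0, hvs, hlv, add_zero]
  obtain ⟨i, hi⟩ := hex
  obtain ⟨he0, hev⟩ := val_zero (Lc_ge h.v_nonneg (hLc i)) hi
  have hc0 : L.coeff i ≠ 0 := fun h => he0 (by rw [h, zero_div])
  have hca : L.coeff i / a = (L.coeff i / a₁) * n := by
    rw [ha₁]; field_simp
  refine ⟨L.coeff i, hc0, hLfix i, ⟨g, hg, hLI i⟩, ?_, ?_⟩
  · rw [hca]
    exact Lc_mul (hLc i) (subset_Lc hnI)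
  · rw [hca, v.map_mul he0 hn0, hev, hvn, add_zero]

end

end Pool.Agent.ALL61R
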